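import Pool.Agent.H11.NS.Targets

namespace Pool.Agent.H11.NS

theorem ch_eq_one {G : Type} [Group G] {q : G} {m n : ℕ} (h1 : q ^ m = 1) (h2 : q ^ n = 1)
    (h : Nat.Coprime m n) : q = 1 := by
  have ha := orderOf_dvd_of_pow_eq_one h1
  have hb := orderOf_dvd_of_pow_eq_one h2
  have hc : orderOf q ∣ 1 := by
    have := Nat.dvd_gcd ha hb
    rwa [h] at this
  exact orderOf_eq_one_iff.1 (Nat.dvd_one.1 hc)

theorem pf_ch : T_CH := by
  intro G _ S a h e ℓ hℓ hℓ3 ha hS hh hD hord hndvd M hM hnorm hMS
  have hpos : 0 < orderOf h := hord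
  -- basic facts
  have D0 : ∀ j, (derivedSeries S j).map S.subtype ≤ S := by
    intro j x hx
    obtain ⟨y, _, rfl⟩ := hx
    exact y.2
  have Danti : ∀ i j, i ≤ j → (derivedSeries S j).map S.subtype ≤
      (derivedSeries S i).map S.subtype := by
    intro i j hij
    exact Subgroup.map_mono (derivedSeries_antitone S hij)
  have Dcomm : ∀ j x y, x ∈ (derivedSeries S j).map S.subtype →
      y ∈ (derivedSeries S j).map S.subtype →
      x * y * x⁻¹ * y⁻¹ ∈ (derivedSeries S (j + 1)).map S.subtype := by
    rintro j x y ⟨x', hx', rfl⟩ ⟨y', hy', rfl⟩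
    refine ⟨x' * y' * x'⁻¹ * y'⁻¹, ?_, by simp⟩
    rw [derivedSeries_succ]
    exact Subgroup.commutator_mem_commutator hx' hy'
  have hhS : h ∈ S := D0 e hh
  have hah : a * h = h * a := hS h hhS
  have key : ∀ i j, j + i = e + 1 → ∀ x ∈ M, a * x = x * a →
      x ∈ (derivedSeries S j).map S.subtype → h * x = x * h := by
    intro i
    induction i with
    | zero =>
      intro j hj x hx hax hxD
      have hj' : j = e + 1 := by omega
      subst hj'
      obtain ⟨k, hk⟩ := Subgroup.mem_zpowers_iff.1 (hD hxD)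
      have hx3 : x ^ 3 = 1 := by
        rw [← hk, ← zpow_natCast, ← zpow_mul, mul_comm, zpow_mul, zpow_natCast, ha, one_zpow]
      obtain ⟨m, hm⟩ := hM x hx
      have hx1 : x = 1 := ch_eq_one hx3 hm
        (Nat.Coprime.pow_right m ((Nat.coprime_primes Nat.prime_three hℓ).2 (Ne.symm hℓ3)))
      rw [hx1]; simp
    | succ i ih =>
      intro j hj x hx hax hxD
      have hje : j ≤ e := by omega
      have hhD : h ∈ (derivedSeries S j).map S.subtype := Danti j e hje hh
      set q : G := x⁻¹ * (h * x * h⁻¹) with hq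
      have hqD : q ∈ (derivedSeries S (j + 1)).map S.subtype := by
        have := Dcomm j x⁻¹ h (Subgroup.inv_mem _ hxD) hhD
        have h2 : x⁻¹ * h * x⁻¹⁻¹ * h⁻¹ = q := by rw [hq]; group
        rwa [h2] at this
      have hqM : q ∈ M := M.mul_mem (M.inv_mem hx) (hnorm x hx)
      have hC : Commute a x := hax
      have hC2 : Commute a h := hah
      have haq : a * q = q * a := by
        have : Commute a q := (hC.inv_right).mul_right ((hC2.mul_right hC).mul_right hC2.inv_right)
        exact this
      have hhq : h * q = q * h := ih (j + 1) (by omega) q hqM haq hqD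
      have hcq : Commute h q := hhq
      have hconj : ∀ n : ℕ, h ^ n * x * (h ^ n)⁻¹ = x * q ^ n := by
        intro n
        induction n with
        | zero => simp
        | succ n ihn =>
          have e1 : h ^ (n + 1) * x * (h ^ (n + 1))⁻¹ = h ^ n * (h * x * h⁻¹) * (h ^ n)⁻¹ := by
            rw [pow_succ]; group
          have e2 : h * x * h⁻¹ = x * q := by rw [hq]; group
          have e3 : h ^ n * q * (h ^ n)⁻¹ = q := by
            rw [(hcq.pow_left n).eq]; group
          calc h ^ (n + 1) * x * (h ^ (n + 1))⁻¹ = h ^ n * (x * q) * (h ^ n)⁻¹ := by rw [e1, e2]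
            _ = (h ^ n * x * (h ^ n)⁻¹) * (h ^ n * q * (h ^ n)⁻¹) := by group
            _ = x * q ^ n * q := by rw [ihn, e3]
            _ = x * q ^ (n + 1) := by rw [pow_succ, mul_assoc]
      have hq1 : q ^ orderOf h = 1 := by
        have := hconj (orderOf h)
        rw [pow_orderOf_eq_one] at this
        simp only [one_mul, inv_one, mul_one] at this
        have h3 : x * 1 = x * q ^ orderOf h := by rw [mul_one]; exact this
        exact (mul_left_cancel h3).symm
      obtain ⟨m, hm⟩ := hM q hqM
      have hq2 : q = 1 := ch_eq_one hq1 hm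
        (Nat.Coprime.pow_right m ((Nat.Prime.coprime_iff_not_dvd hℓ).2 hndvd).symm)
      have e2 : h * x * h⁻¹ = x * q := by rw [hq]; group
      rw [hq2, mul_one] at e2
      calc h * x = (h * x * h⁻¹) * h := by group
        _ = x * h := by rw [e2]
  intro x hx hax
  have hxS : x ∈ S := hMS x hx hax
  refine key (e + 1) 0 (by omega) x hx hax ?_
  rw [derivedSeries_zero]
  exact ⟨⟨x, hxS⟩, trivial, rfl⟩

end Pool.Agent.H11.NS
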